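import Pool.Agent.Helper58.VW.Exch
import Pool.Agent.Helper61.GL.Trf

/-!
# Theorem FW: a chain whose windows are nearly independent step by step
-/

set_option autoImplicit false

namespace Pool.Agent.Helper92.FW

open Finset Pool.Agent.Helper69.RK Pool.Agent.Helper61.GL Pool.Agent.Helper46.WF Pool.Agent.Helper58.VW

variable {Ω V γ κ : Type} [Fintype Ω] [Fintype V]

/-- the law of `W` under the weights `μ` is at most `w` up to `ε` on every set -/
def Cle (μ : Ω → ℝ) (W : Ω → V) (w : V → ℝ) (ε : ℝ) : Prop :=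
  ∀ S : V → Prop, Pw μ (fun ω => S (W ω)) ≤ Pw w S + ε

/-- closeness for functions with values in `[0, 1]` -/
theorem Cle.fn {μ : Ω → ℝ} {W : Ω → V} {w : V → ℝ} {ε : ℝ} (h : Cle μ W w ε) (f : V → ℝ)
    (hf : ∀ v, 0 ≤ f v ∧ f v ≤ 1) :
    ∑ ω, μ ω * f (W ω) ≤ ∑ v, w v * f v + ε := by
  classical
  set P : V → ℝ := fun v => ∑ ω, if W ω = v then μ ω else 0 with hP
  have e1 : ∀ g : V → ℝ, ∑ ω, μ ω * g (W ω) = ∑ v, P v * g v := by
    intro g
    have : ∀ v, P v * g v = ∑ ω, if W ω = v then μ ω * g (W ω) else 0 := by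
      intro v
      rw [hP, Finset.sum_mul]
      refine Finset.sum_congr rfl fun ω _ => ?_
      by_cases hv : W ω = v
      · rw [if_pos hv, if_pos hv, hv]
      · rw [if_neg hv, if_neg hv, zero_mul]
    simp only [this]
    rw [Finset.sum_comm]
    refine Finset.sum_congr rfl fun ω _ => ?_
    rw [Finset.sum_ite_eq Finset.univ (W ω) fun _ => μ ω * g (W ω), if_pos (Finset.mem_univ _)]
  have h1 := h (fun v => w v < P v)
  have e2 : Pw μ (fun ω => w (W ω) < P (W ω)) = ∑ v, if w v < P v then P v else 0 := by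
    have := e1 (fun v => if w v < P v then 1 else 0)
    unfold Pw
    have g1 : ∀ ω, (if w (W ω) < P (W ω) then μ ω else 0) = μ ω * (if w (W ω) < P (W ω) then 1 else 0) := by
      intro ω
      split_ifs <;> simp
    rw [Finset.sum_congr rfl fun ω _ => g1 ω, this]
    refine Finset.sum_congr rfl fun v _ => ?_
    split_ifs <;> simp
  rw [e2] at h1
  rw [e1]
  have h2 : ∑ v, P v * f v ≤ ∑ v, w v * f v + (∑ v, if w v < P v then P v else 0) -
      (∑ v, if w v < P v then w v else 0) := by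
    rw [← Finset.sum_add_distrib, ← Finset.sum_sub_distrib]
    refine Finset.sum_le_sum fun v _ => ?_
    obtain ⟨f0, f1⟩ := hf v
    split_ifs with hv
    · nlinarith
    · push Not at hv
      nlinarith
  have h3 : Pw w (fun v => w v < P v) = ∑ v, if w v < P v then w v else 0 := by
    unfold Pw
    rfl
  linarith

theorem Cle_mono {μ : Ω → ℝ} {W : Ω → V} {w : V → ℝ} {ε ε' : ℝ} (h : Cle μ W w ε) (he : ε ≤ ε') :
    Cle μ W w ε' := fun S => (h S).trans (by linarith)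

/-- one step -/
theorem step {δ : Type} (μ : Ω → ℝ) (hμ : ∀ ω, 0 ≤ μ ω) (hm : ∑ ω, μ ω = 1) (G : Ω → κ) (W : Ω → V)
    (Y : Ω → δ) (hY : ∀ ω ω', μ ω ≠ 0 → μ ω' ≠ 0 → G ω = G ω' → Y ω = Y ω') (w : δ → V → ℝ)
    (hw : ∀ d v, 0 ≤ w d v) (f : δ → V → ℝ) (hf : ∀ d v, 0 ≤ f d v ∧ f d v ≤ 1) {ε : ℝ} (hε : 0 ≤ ε) :
    ∑ ω, μ ω * f (Y ω) (W ω) ≤ ∑ ω, μ ω * ∑ v, w (Y ω) v * f (Y ω) v +
      (ε + Pw μ (fun ω => ¬ Cle (cw μ G ω) W (w (Y ω)) ε)) := by
  classical
  rw [← sum_cw μ hμ G]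
  have h1 : ∀ ω, μ ω * ∑ ω', cw μ G ω ω' * f (Y ω') (W ω') ≤
      μ ω * ∑ v, w (Y ω) v * f (Y ω) v + (μ ω * ε +
        if ¬ Cle (cw μ G ω) W (w (Y ω)) ε then μ ω else 0) := by
    intro ω
    by_cases h0 : μ ω = 0
    · rw [h0]
      simp
    have e1 : ∑ ω', cw μ G ω ω' * f (Y ω') (W ω') = ∑ ω', cw μ G ω ω' * f (Y ω) (W ω') := by
      refine Finset.sum_congr rfl fun ω' _ => ?_
      by_cases h2 : cw μ G ω ω' = 0
      · rw [h2, zero_mul, zero_mul]
      · obtain ⟨h3, h4⟩ := cw_ne_zero μ G h2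
        rw [hY ω' ω h4 h0 h3]
    rw [e1]
    have hs : 0 ≤ ∑ v, w (Y ω) v * f (Y ω) v :=
      Finset.sum_nonneg fun v _ => mul_nonneg (hw _ v) (hf (Y ω) v).1
    by_cases h2 : Cle (cw μ G ω) W (w (Y ω)) ε
    · rw [if_neg (not_not.2 h2), add_zero, ← mul_add]
      exact mul_le_mul_of_nonneg_left (h2.fn (f (Y ω)) (hf (Y ω))) (hμ ω)
    · rw [if_pos h2]
      have h3 : ∑ ω', cw μ G ω ω' * f (Y ω) (W ω') ≤ 1 := by
        rw [← cw_sum μ G hμ ω h0]
        refine Finset.sum_le_sum fun ω' _ => ?_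
        have g1 := cw_nonneg μ G hμ ω ω'
        have g2 := (hf (Y ω) (W ω')).2
        nlinarith
      have g3 := mul_le_mul_of_nonneg_left h3 (hμ ω)
      have g4 := mul_nonneg (hμ ω) hs
      have g5 := mul_nonneg (hμ ω) hε
      linarith
  refine (Finset.sum_le_sum fun ω _ => h1 ω).trans (le_of_eq ?_)
  rw [Finset.sum_add_distrib, Finset.sum_add_distrib, ← Finset.sum_mul, hm, one_mul]
  have e2 : (∑ x, if ¬ Cle (cw μ G x) W (w (Y x)) ε then μ x else 0) =
      Pw μ (fun ω => ¬ Cle (cw μ G ω) W (w (Y ω)) ε) := by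
    unfold Pw
    refine Finset.sum_congr rfl fun ω _ => ?_
    by_cases h : Cle (cw μ G ω) W (w (Y ω)) ε <;> simp [h]
  rw [e2]

/-- **THE CHAIN**: windows which are close to the node law given the past are close to independent -/
theorem chain_tv (μ : Ω → ℝ) (hμ : ∀ ω, 0 ≤ μ ω) (hm : ∑ ω, μ ω = 1) (g0 : Ω → γ) (w : γ → V → ℝ)
    (hw : ∀ d v, 0 ≤ w d v) (hw1 : ∀ d, ∑ v, w d v = 1) :
    ∀ (M : ℕ) (κ : Fin M → Type) (G : ∀ i, Ω → κ i) (W : Ω → Fin M → V) (ε : Fin M → ℝ),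
    (∀ i, 0 ≤ ε i) →
    (∀ i ω ω', μ ω ≠ 0 → μ ω' ≠ 0 → G i ω = G i ω' → g0 ω = g0 ω' ∧ ∀ j, j < i → W ω j = W ω' j) →
    ∀ f : γ → (Fin M → V) → ℝ, (∀ d v, 0 ≤ f d v ∧ f d v ≤ 1) →
    ∑ ω, μ ω * f (g0 ω) (W ω) ≤ ∑ ω, μ ω * ∑ v, wK (w (g0 ω)) M v * f (g0 ω) v +
      ∑ i, (ε i + Pw μ (fun ω => ¬ Cle (cw μ (G i) ω) (fun ω => W ω i) (w (g0 ω)) (ε i))) := by
  classical
  intro M
  induction M with
  | zero =>
    intro κ G W ε _ _ f _
    rw [Finset.univ_eq_empty (α := Fin 0), Finset.sum_empty, add_zero]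
    refine le_of_eq (Finset.sum_congr rfl fun ω _ => ?_)
    have : ∑ v : Fin 0 → V, wK (w (g0 ω)) 0 v * f (g0 ω) v = f (g0 ω) (W ω) := by
      rw [Fintype.sum_eq_single (W ω) (fun v hv => absurd (Subsingleton.elim v (W ω)) hv)]
      show (∏ k : Fin 0, w (g0 ω) (W ω k)) * _ = _
      rw [Finset.univ_eq_empty, Finset.prod_empty, one_mul]
    rw [this]
  | succ M ih =>
    intro κ G W ε hε hG f hf
    -- the last step
    set W' : Ω → Fin M → V := fun ω j => W ω j.castSucc with hW'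
    have s1 := step μ hμ hm (G (Fin.last M)) (fun ω => W ω (Fin.last M)) (fun ω => (g0 ω, W' ω))
      (fun ω ω' h1 h2 h3 => by
        obtain ⟨a1, a2⟩ := hG (Fin.last M) ω ω' h1 h2 h3
        refine Prod.ext a1 (funext fun j => a2 _ (Fin.castSucc_lt_last j)))
      (fun d v => w d.1 v) (fun d v => hw _ _) (fun d v => f d.1 (Fin.snoc d.2 v))
      (fun d v => hf _ _) (hε (Fin.last M))
    -- the others
    have s2 := ih (fun i => κ i.castSucc) (fun i => G i.castSucc) W' (fun i => ε i.castSucc)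
      (fun i => hε _) (fun i ω ω' h1 h2 h3 => by
        obtain ⟨a1, a2⟩ := hG i.castSucc ω ω' h1 h2 h3
        exact ⟨a1, fun j hj => a2 _ hj⟩)
      (fun d v' => ∑ v, w d v * f d (Fin.snoc v' v)) (fun d v' => by
        constructor
        · exact Finset.sum_nonneg fun v _ => mul_nonneg (hw _ _) (hf _ _).1
        · rw [← hw1 d]
          refine Finset.sum_le_sum fun v _ => ?_
          have g1 := hw d v
          have g2 := (hf d (Fin.snoc v' v)).2
          nlinarith)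
    have e1 : ∀ ω, f (g0 ω) (Fin.snoc (W' ω) (W ω (Fin.last M))) = f (g0 ω) (W ω) := by
      intro ω
      congr 1
      exact Fin.snoc_init_self (α := fun _ => V) (W ω)
    have e2 : ∀ d, ∑ v' : Fin M → V, wK (w d) M v' * ∑ v, w d v * f d (Fin.snoc v' v) =
        ∑ v : Fin (M + 1) → V, wK (w d) (M + 1) v * f d v := by
      intro d
      have := sum_insert (w := w d) (K := M) (fun v' v => f d (Fin.snoc v' v)) (Fin.last M)
      rw [← this]
      refine Finset.sum_congr rfl fun v _ => ?_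
      congr 2
      have g1 : (fun k : Fin M => v ((Fin.last M).succAbove k)) = Fin.init v := by
        funext k
        rw [Fin.succAbove_last]
        rfl
      rw [g1]
      exact Fin.snoc_init_self (α := fun _ => V) v
    simp only [e1] at s1
    simp only [e2] at s2
    rw [Fin.sum_univ_castSucc]
    linarith

end Pool.Agent.Helper92.FW
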