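import Pool.Agent.Helper9.VB.Span
import Pool.Agent.Helper26.VW.Fr
import Pool.Agent.Helper92.FW.Chn

/-!
# Theorem FW: sampled blocks span the body
-/

set_option autoImplicit false

namespace Pool.Agent.Helper92.FW

open Finset Matrix Pool.Agent.Helper69.RK Pool.Agent.Helper61.GL Pool.Agent.Helper46.WF
  Pool.Agent.Helper58.VW Pool.Agent.Helper9.VB

variable {Ω V : Type} [Fintype Ω] [Fintype V] {N : ℕ}

/-! ### independent samples -/

theorem Pw_add_compl (w : V → ℝ) (hw1 : ∑ v, w v = 1) (S : V → Prop) :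
    Pw w (fun v => ¬ S v) = 1 - Pw w S := by
  have := Pw_compl w hw1 S
  linarith

/-- no sample lies in `S` -/
theorem wK_none (w : V → ℝ) (S : V → Prop) (K : ℕ) :
    Pw (wK w K) (fun x => ∀ k, ¬ S (x k)) = (Pw w (fun v => ¬ S v)) ^ K := by
  classical
  have h := Finset.prod_univ_sum (fun _ : Fin K => (univ : Finset V)) (fun _ v => if ¬ S v then w v else 0)
  rw [Finset.prod_const, Finset.card_univ, Fintype.card_fin] at h
  have e1 : Pw w (fun v => ¬ S v) = ∑ v, if ¬ S v then w v else 0 := by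
    unfold Pw
    refine Finset.sum_congr rfl fun v _ => ?_
    by_cases hv : S v <;> simp [hv]
  rw [e1, h, Fintype.piFinset_univ]
  unfold Pw wK
  refine Finset.sum_congr rfl fun x _ => ?_
  by_cases hx : ∀ k, ¬ S (x k)
  · rw [if_pos hx]
    refine Finset.prod_congr rfl fun k _ => ?_
    rw [if_pos (hx k)]
  · rw [if_neg hx]
    push Not at hx
    obtain ⟨k, hk⟩ := hx
    symm
    apply Finset.prod_eq_zero (Finset.mem_univ k)
    rw [if_neg (not_not.2 hk)]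

theorem wK_miss (w : V → ℝ) (hw : ∀ v, 0 ≤ w v) (hw1 : ∑ v, w v = 1) (S : V → Prop) {p : ℝ}
    (hp : p ≤ Pw w S) (K : ℕ) : Pw (wK w K) (fun x => ∀ k, ¬ S (x k)) ≤ (1 - p) ^ K := by
  rw [wK_none]
  apply pow_le_pow_left₀ (Pw_nonneg w hw _)
  rw [Pw_add_compl w hw1]
  linarith

/-! ### the vectors of the blocks and the floor vectors -/

/-- vectors of the blocks, then floor vectors -/
def vecs {K : ℕ} (x : Fin K → Fin N → ℝ) (φ : Fin N → Fin N → ℝ) : Fin K ⊕ Fin N → Fin N → ℝ :=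
  Sum.elim x φ

/-- the net of covectors -/
noncomputable def net (N : ℕ) (c : ℝ) : Finset (Fin N → ℝ) :=
  if h : 0 < c then (exists_net N (half_pos h)).choose else ∅

theorem net_mem {c : ℝ} (hc : 0 < c) : ∀ ν ∈ net N c, ν ∈ Sph N := by
  unfold net
  rw [dif_pos hc]
  exact (exists_net N (half_pos hc)).choose_spec.1

theorem net_cov {c : ℝ} (hc : 0 < c) : ∀ ν ∈ Sph N, ∃ ν' ∈ net N c, ∑ i, |ν i - ν' i| ≤ c / 2 := by
  unfold net
  rw [dif_pos hc]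
  exact (exists_net N (half_pos hc)).choose_spec.2

/-- every covector of the net is seen by a block or by a floor vector -/
def Seen (T : V → Fin N → ℝ) (φ : Fin N → Fin N → ℝ) (c : ℝ) {K : ℕ} (W : Fin K → V) : Prop :=
  ∀ ν ∈ net N c, ∃ k, c ≤ |ν ⬝ᵥ vecs (fun k => T (W k)) φ k|

/-- the condition on the law of one block -/
def See (T : V → Fin N → ℝ) (φ : Fin N → Fin N → ℝ) (w : V → ℝ) (c p : ℝ) : Prop :=
  ∀ ν : Fin N → ℝ, ∑ i, |ν i| = 1 → (∃ i, c ≤ |ν ⬝ᵥ φ i|) ∨ p ≤ Pw w (fun v => c ≤ |ν ⬝ᵥ T v|)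

theorem seen_iid (T : V → Fin N → ℝ) (φ : Fin N → Fin N → ℝ) (w : V → ℝ) (hw : ∀ v, 0 ≤ w v)
    (hw1 : ∑ v, w v = 1) {c p : ℝ} (hc : 0 < c) (hp : p ≤ 1) (hs : See T φ w c p) (K : ℕ) :
    Pw (wK w K) (fun x => ¬ Seen T φ c x) ≤ (net N c).card * (1 - p) ^ K := by
  classical
  have h0 := wK_nonneg hw K
  have hq : (0 : ℝ) ≤ (1 - p) ^ K := pow_nonneg (by linarith) K
  have hp1 : ∀ ν ∈ net N c, Pw (wK w K) (fun x => ∀ k, ¬ c ≤ |ν ⬝ᵥ vecs (fun k => T (x k)) φ k|) ≤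
      (1 - p) ^ K := by
    intro ν hν
    rcases hs ν (net_mem hc ν hν) with ⟨i, hi⟩ | h
    · have : Pw (wK w K) (fun x => ∀ k, ¬ c ≤ |ν ⬝ᵥ vecs (fun k => T (x k)) φ k|) = 0 := by
        unfold Pw
        refine Finset.sum_eq_zero fun x _ => ?_
        rw [if_neg]
        intro h
        exact h (Sum.inr i) hi
      rw [this]
      exact hq
    · refine le_trans ?_ (wK_miss w hw hw1 _ h K)
      exact Pw_mono _ h0 fun x _ hx k => hx (Sum.inl k)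
  -- union bound
  have h1 : ∀ S : Finset (Fin N → ℝ), (∀ ν ∈ S, Pw (wK w K) (fun x => ∀ k,
      ¬ c ≤ |ν ⬝ᵥ vecs (fun k => T (x k)) φ k|) ≤ (1 - p) ^ K) →
      Pw (wK w K) (fun x => ∃ ν ∈ S, ∀ k, ¬ c ≤ |ν ⬝ᵥ vecs (fun k => T (x k)) φ k|) ≤
        S.card * (1 - p) ^ K := by
    intro S
    induction S using Finset.induction_on with
    | empty =>
      intro _
      rw [Finset.card_empty, Nat.cast_zero, zero_mul]
      refine le_of_eq ?_
      unfold Pw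
      refine Finset.sum_eq_zero fun x _ => ?_
      rw [if_neg]
      rintro ⟨ν, hν, -⟩
      exact absurd hν (Finset.notMem_empty ν)
    | insert a S ha ih =>
      intro hS
      rw [Finset.card_insert_of_notMem ha]
      push_cast
      have e1 := ih fun ν hν => hS ν (Finset.mem_insert_of_mem hν)
      have e2 := hS a (Finset.mem_insert_self a S)
      have e3 : Pw (wK w K) (fun x => ∃ ν ∈ insert a S, ∀ k, ¬ c ≤ |ν ⬝ᵥ vecs (fun k => T (x k)) φ k|) ≤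
          Pw (wK w K) (fun x => ∀ k, ¬ c ≤ |a ⬝ᵥ vecs (fun k => T (x k)) φ k|) +
          Pw (wK w K) (fun x => ∃ ν ∈ S, ∀ k, ¬ c ≤ |ν ⬝ᵥ vecs (fun k => T (x k)) φ k|) := by
        refine le_trans (Pw_mono _ h0 ?_) (Pw_or _ h0 _ _)
        rintro x _ ⟨ν, hν, hk⟩
        rcases Finset.mem_insert.1 hν with rfl | h
        · exact Or.inl hk
        · exact Or.inr ⟨ν, h, hk⟩
      linarith
  refine le_trans (Pw_mono _ h0 ?_) (h1 (net N c) hp1)
  intro x _ hx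
  unfold Seen at hx
  push Not at hx
  obtain ⟨ν, hν, hk⟩ := hx
  exact ⟨ν, hν, fun k => not_le.2 (hk k)⟩

/-! ### perturbation of a frame -/

/-- a frame with small errors spans as well -/
theorem pert {ι : Type} (y x : ι → Fin N → ℝ) (s : Fin N → ι) {c ε : ℝ} (hc : 0 < c)
    (h : ∀ v : Fin N → ℝ, ∃ t : Fin N → ℝ, (∀ i, |t i| ≤ ‖v‖ / c) ∧ v = ∑ i, t i • y (s i))
    (hx : ∀ i, ‖x (s i) - y (s i)‖ ≤ ε) (hε : ε ≤ c / (2 * N + 1)) (v : Fin N → ℝ) :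
    ∃ t : Fin N → ℝ, (∀ i, |t i| ≤ 2 * ‖v‖ / c) ∧ v = ∑ i, t i • x (s i) := by
  have hN : (0 : ℝ) ≤ N := Nat.cast_nonneg N
  choose e he1 he2 using fun j => h (x (s j) - y (s j))
  set E : Matrix (Fin N) (Fin N) ℝ := Matrix.of fun i j => e j i with hE
  have hEb : Pool.Agent.Helper26.VW.Bdd (1 / (2 * N + 1)) E := by
    intro i j
    refine (he1 j i).trans ?_
    rw [div_le_div_iff₀ hc (by positivity)]
    have h1 := (hx j).trans hε
    rw [le_div_iff₀ (by positivity)] at h1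
    linarith
  obtain ⟨t, ht1, ht2⟩ := h v
  have hdet := Pool.Agent.Helper26.VW.pert_det E hEb
  set t' : Fin N → ℝ := (1 + E)⁻¹ *ᵥ t with ht'
  have hmul : (1 + E) *ᵥ t' = t := by
    rw [ht', Matrix.mulVec_mulVec, Matrix.mul_nonsing_inv _ (isUnit_iff_ne_zero.2 hdet), Matrix.one_mulVec]
  refine ⟨t', fun i => ?_, ?_⟩
  · have := Pool.Agent.Helper26.VW.pert_vec E hEb t' t (‖v‖ / c) hmul ht1 i
    rw [mul_div_assoc]
    exact this
  · have h1 : ∀ j, x (s j) = y (s j) + ∑ i, e j i • y (s i) := by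
      intro j
      have := he2 j
      rw [← this]
      abel
    have h2 : ∀ i, t i = t' i + ∑ j, e j i * t' j := by
      intro i
      have := congrFun hmul i
      rw [Matrix.add_mulVec, Matrix.one_mulVec, Pi.add_apply] at this
      rw [← this]
      rfl
    calc v = ∑ i, t i • y (s i) := ht2
      _ = ∑ i, (t' i • y (s i) + ∑ j, (e j i * t' j) • y (s i)) := by
          refine Finset.sum_congr rfl fun i _ => ?_
          rw [h2 i, add_smul, Finset.sum_smul]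
      _ = ∑ j, t' j • y (s j) + ∑ j, ∑ i, (e j i * t' j) • y (s i) := by
          rw [Finset.sum_add_distrib, Finset.sum_comm (f := fun i j => (e j i * t' j) • y (s i))]
      _ = ∑ j, t' j • x (s j) := by
          rw [← Finset.sum_add_distrib]
          refine Finset.sum_congr rfl fun j _ => ?_
          rw [h1 j, smul_add, Finset.smul_sum]
          congr 1
          refine Finset.sum_congr rfl fun i _ => ?_
          rw [smul_smul, mul_comm]

/-! ### the selection -/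

theorem Seen.all {T : V → Fin N → ℝ} {φ : Fin N → Fin N → ℝ} {c : ℝ} (hc : 0 < c) (hT : ∀ v, ‖T v‖ ≤ 1)
    (hφ : ∀ i, ‖φ i‖ ≤ 1) {K : ℕ} {W : Fin K → V} (h : Seen T φ c W) (ν : Fin N → ℝ) (hν : ∑ i, |ν i| = 1) :
    ∃ k, c / 2 ≤ |ν ⬝ᵥ vecs (fun k => T (W k)) φ k| := by
  obtain ⟨k, hk⟩ := seen_of_net (vecs (fun k => T (W k)) φ) (by
    rintro (k | k)
    · exact hT _
    · exact hφ k) (c := c) (ε := c / 2) (net N c) (net_cov hc) h ν hν
  exact ⟨k, by linarith⟩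

/-- the selected blocks, a function of the windows -/
noncomputable def sel (T : V → Fin N → ℝ) (φ : Fin N → Fin N → ℝ) (c : ℝ) {K : ℕ} (W : Fin K → V) :
    Fin N → Fin K ⊕ Fin N := by
  classical
  exact if h : ∃ s : Fin N → Fin K ⊕ Fin N, (Matrix.of fun i => vecs (fun k => T (W k)) φ (s i)).det ≠ 0 ∧
      ∀ v : Fin N → ℝ, ∃ t : Fin N → ℝ, (∀ i, |t i| ≤ ‖v‖ / (c / 2)) ∧
        v = ∑ i, t i • vecs (fun k => T (W k)) φ (s i) then h.choose else fun i => Sum.inr i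

theorem sel_spec {T : V → Fin N → ℝ} {φ : Fin N → Fin N → ℝ} {c : ℝ} (hc : 0 < c) (hT : ∀ v, ‖T v‖ ≤ 1)
    (hφ : ∀ i, ‖φ i‖ ≤ 1) {K : ℕ} {W : Fin K → V} (h : Seen T φ c W) :
    (Matrix.of fun i => vecs (fun k => T (W k)) φ (sel T φ c W i)).det ≠ 0 ∧
      ∀ v : Fin N → ℝ, ∃ t : Fin N → ℝ, (∀ i, |t i| ≤ ‖v‖ / (c / 2)) ∧
        v = ∑ i, t i • vecs (fun k => T (W k)) φ (sel T φ c W i) := by
  classical
  have h1 : ∃ s : Fin N → Fin K ⊕ Fin N, (Matrix.of fun i => vecs (fun k => T (W k)) φ (s i)).det ≠ 0 ∧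
      ∀ v : Fin N → ℝ, ∃ t : Fin N → ℝ, (∀ i, |t i| ≤ ‖v‖ / (c / 2)) ∧
        v = ∑ i, t i • vecs (fun k => T (W k)) φ (s i) := by
    obtain ⟨s, h2, -, h4⟩ := span_of_seen (vecs (fun k => T (W k)) φ) (half_pos hc) (h.all hc hT hφ)
    exact ⟨s, h2, h4⟩
  unfold sel
  rw [dif_pos h1]
  exact h1.choose_spec

/-- the selected blocks are not off the good windows -/
theorem sel_ne {T : V → Fin N → ℝ} {φ : Fin N → Fin N → ℝ} {c : ℝ} (hc : 0 < c) (hT : ∀ v, ‖T v‖ ≤ 1)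
    (hφ : ∀ i, ‖φ i‖ ≤ 1) {K : ℕ} {W : Fin K → V} (h : Seen T φ c W) {i : Fin N} {k : Fin K}
    (hk : sel T φ c W i = Sum.inl k) : T (W k) ≠ 0 := by
  intro h0
  apply (sel_spec hc hT hφ h).1
  apply Matrix.det_eq_zero_of_row_eq_zero i
  intro j
  show vecs (fun k => T (W k)) φ (sel T φ c W i) j = 0
  rw [hk]
  show T (W k) j = 0
  rw [h0]
  rfl

/-- the selection has no repetitions -/
theorem sel_inj {T : V → Fin N → ℝ} {φ : Fin N → Fin N → ℝ} {c : ℝ} (hc : 0 < c) (hT : ∀ v, ‖T v‖ ≤ 1)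
    (hφ : ∀ i, ‖φ i‖ ≤ 1) {K : ℕ} {W : Fin K → V} (h : Seen T φ c W) : Function.Injective (sel T φ c W) := by
  intro i j hij
  by_contra hne
  apply (sel_spec hc hT hφ h).1
  apply Matrix.det_zero_of_row_eq hne
  show vecs (fun k => T (W k)) φ (sel T φ c W i) = vecs (fun k => T (W k)) φ (sel T φ c W j)
  rw [hij]

/-- **SPANNING** by the exact vectors of the selected blocks -/
theorem sel_span {T : V → Fin N → ℝ} {φ : Fin N → Fin N → ℝ} {c : ℝ} (hc : 0 < c) (hT : ∀ v, ‖T v‖ ≤ 1)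
    (hφ : ∀ i, ‖φ i‖ ≤ 1) {K : ℕ} {W : Fin K → V} (h : Seen T φ c W) (x : Fin K → Fin N → ℝ)
    (hx : ∀ i k, sel T φ c W i = Sum.inl k → ‖x k - T (W k)‖ ≤ c / (4 * N + 2)) (v : Fin N → ℝ) :
    ∃ t : Fin N → ℝ, (∀ i, |t i| ≤ 4 * ‖v‖ / c) ∧ v = ∑ i, t i • vecs x φ (sel T φ c W i) := by
  have hN : (0 : ℝ) ≤ N := Nat.cast_nonneg N
  obtain ⟨t, h1, h2⟩ := pert (vecs (fun k => T (W k)) φ) (vecs x φ) (sel T φ c W) (half_pos hc)
    (sel_spec hc hT hφ h).2 (ε := c / (4 * N + 2)) (fun i => by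
      rcases hs : sel T φ c W i with k | k
      · exact hx i k hs
      · show ‖φ k - φ k‖ ≤ _
        rw [sub_self, norm_zero]
        positivity) (le_of_eq (by field_simp; ring)) v
  refine ⟨t, fun i => (h1 i).trans (le_of_eq (by field_simp; ring)), h2⟩

/-! ### the chain -/

/-- **THE CHAIN SPANS**: at the good points the node law sees every direction -/
theorem seen_chain {γ : Type} (μ : Ω → ℝ) (hμ : ∀ ω, 0 ≤ μ ω) (hm : ∑ ω, μ ω = 1) (g0 : Ω → γ)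
    (w : γ → V → ℝ) (hw : ∀ d v, 0 ≤ w d v) (hw1 : ∀ d, ∑ v, w d v = 1) (T : γ → V → Fin N → ℝ)
    (φ : γ → Fin N → Fin N → ℝ) {c p : ℝ} (hc : 0 < c) (hp : p ≤ 1)
    (K : ℕ) (κ : Fin K → Type) (G : ∀ i, Ω → κ i) (W : Ω → Fin K → V) (ε : Fin K → ℝ) (hε : ∀ i, 0 ≤ ε i)
    (hG : ∀ i ω ω', μ ω ≠ 0 → μ ω' ≠ 0 → G i ω = G i ω' → g0 ω = g0 ω' ∧ ∀ j, j < i → W ω j = W ω' j) :
    Pw μ (fun ω => See (T (g0 ω)) (φ (g0 ω)) (w (g0 ω)) c p ∧ ¬ Seen (T (g0 ω)) (φ (g0 ω)) c (W ω)) ≤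
      (net N c).card * (1 - p) ^ K +
      ∑ i, (ε i + Pw μ (fun ω => ¬ Cle (cw μ (G i) ω) (fun ω => W ω i) (w (g0 ω)) (ε i))) := by
  classical
  have hq : (0 : ℝ) ≤ (1 - p) ^ K := pow_nonneg (by linarith) K
  have h1 := chain_tv μ hμ hm g0 w hw hw1 K κ G W ε hε hG
    (fun d v => if See (T d) (φ d) (w d) c p ∧ ¬ Seen (T d) (φ d) c v then 1 else 0) (fun d v => by
      split_ifs <;> norm_num)
  have e1 : Pw μ (fun ω => See (T (g0 ω)) (φ (g0 ω)) (w (g0 ω)) c p ∧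
      ¬ Seen (T (g0 ω)) (φ (g0 ω)) c (W ω)) = ∑ ω, μ ω *
        (if See (T (g0 ω)) (φ (g0 ω)) (w (g0 ω)) c p ∧ ¬ Seen (T (g0 ω)) (φ (g0 ω)) c (W ω) then 1 else 0) := by
    unfold Pw
    refine Finset.sum_congr rfl fun ω _ => ?_
    by_cases h : See (T (g0 ω)) (φ (g0 ω)) (w (g0 ω)) c p ∧ ¬ Seen (T (g0 ω)) (φ (g0 ω)) c (W ω)
    · rw [if_pos h, if_pos h, mul_one]
    · rw [if_neg h, if_neg h, mul_zero]
  rw [e1]
  refine h1.trans (add_le_add ?_ le_rfl)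
  have h2 : ∀ ω, μ ω * ∑ v, wK (w (g0 ω)) K v *
      (if See (T (g0 ω)) (φ (g0 ω)) (w (g0 ω)) c p ∧ ¬ Seen (T (g0 ω)) (φ (g0 ω)) c v then 1 else 0) ≤
      μ ω * ((net N c).card * (1 - p) ^ K) := by
    intro ω
    apply mul_le_mul_of_nonneg_left _ (hμ ω)
    by_cases h : See (T (g0 ω)) (φ (g0 ω)) (w (g0 ω)) c p
    · refine le_trans (le_of_eq ?_) (seen_iid (T (g0 ω)) (φ (g0 ω)) (w (g0 ω)) (hw _) (hw1 _) hc hp h K)
      unfold Pw
      refine Finset.sum_congr rfl fun v _ => ?_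
      by_cases h3 : Seen (T (g0 ω)) (φ (g0 ω)) c v
      · rw [if_neg (fun h4 => h4.2 h3), if_neg (not_not.2 h3), mul_zero]
      · rw [if_pos ⟨h, h3⟩, if_pos h3, mul_one]
    · have : ∑ v, wK (w (g0 ω)) K v *
        (if See (T (g0 ω)) (φ (g0 ω)) (w (g0 ω)) c p ∧ ¬ Seen (T (g0 ω)) (φ (g0 ω)) c v then (1 : ℝ) else 0) = 0 :=
        Finset.sum_eq_zero fun v _ => by rw [if_neg (fun h4 => h h4.1), mul_zero]
      rw [this]
      positivity
  refine (Finset.sum_le_sum fun ω _ => h2 ω).trans (le_of_eq ?_)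
  rw [← Finset.sum_mul, hm, one_mul]

end Pool.Agent.Helper92.FW
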