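import Pool.Agent.Helper20.W.RedA
import Pool.Agent.Helper61.GL.KC

/-!
# FW, row [XG]: good values of the spectators and good levels

Averages of conditional costs, and Markov for costs indexed by one or two levels: outside of a small mass
of values of the label `X` all but few levels are good.
-/

set_option autoImplicit false

namespace Pool.Agent.Helper92.FW

open Finset Pool.Agent.Helper69.RK Pool.Agent.Helper46.WF
open Pool.Agent.Helper61.GL hiding fl

variable {Ω Ω' α β γ : Type} [Fintype Ω] [Fintype Ω']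

/-- the average of the conditional probabilities -/
theorem xg_Pw (μ : Ω → ℝ) (hμ : ∀ ω, 0 ≤ μ ω) (X : Ω → γ) (A : Ω → Prop) :
    ∑ ω, μ ω * Pw (cw μ X ω) A = Pw μ A := by
  classical
  have h := cw_expect μ hμ X (fun ω => if A ω then (1 : ℝ) else 0)
  unfold Pw
  calc ∑ ω, μ ω * ∑ ω', (if A ω' then cw μ X ω ω' else 0)
      = ∑ ω, μ ω * ∑ ω', cw μ X ω ω' * (if A ω' then (1 : ℝ) else 0) := by
        refine Finset.sum_congr rfl fun ω _ => ?_
        congr 1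
        refine Finset.sum_congr rfl fun ω' _ => ?_
        split_ifs <;> simp
    _ = ∑ ω, μ ω * (if A ω then (1 : ℝ) else 0) := h
    _ = ∑ ω, (if A ω then μ ω else 0) := by
        refine Finset.sum_congr rfl fun ω _ => ?_
        split_ifs <;> simp

/-- the average of the conditional masses -/
theorem xg_mass (μ : Ω → ℝ) (hμ : ∀ ω, 0 ≤ μ ω) (X : Ω → γ) (A : Ω → Prop) :
    ∑ ω, μ ω * mass (res (cw μ X ω) A) = mass (res μ A) := by
  have h := xg_Pw μ hμ X A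
  simp only [Pw_eq] at h
  exact h

/-- the average of the conditional entropies -/
theorem xg_CH (μ : Ω → ℝ) (hμ : ∀ ω, 0 ≤ μ ω) (f : Ω → α) (g : Ω → β) (X : Ω → γ) :
    ∑ ω, μ ω * CH (cw μ X ω) f g = CH μ f (fun ω => (g ω, X ω)) :=
  (Pool.Agent.Helper92.W.red_disint μ hμ f g X).symm

/-- the average of the conditional entropies, the condition determines the label -/
theorem xg_CH' (μ : Ω → ℝ) (hμ : ∀ ω, 0 ≤ μ ω) (f : Ω → α) (g : Ω → β) (X : Ω → γ)
    (hg : ∀ ω ω', μ ω ≠ 0 → μ ω' ≠ 0 → g ω = g ω' → X ω = X ω') :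
    ∑ ω, μ ω * CH (cw μ X ω) f g = CH μ f g := by
  rw [xg_CH μ hμ]
  apply ch_congr_right
  intro ω ω' h h'
  constructor
  · intro e
    exact (Prod.mk.inj e).1
  · intro e
    rw [e, hg ω ω' h h' e]

/-- the average of the conditional deficits -/
theorem xg_deficit (μ : Ω → ℝ) (hμ : ∀ ω, 0 ≤ μ ω) (f : Ω → α) (g : Ω → β) (X : Ω → γ)
    (hg : ∀ ω ω', μ ω ≠ 0 → μ ω' ≠ 0 → g ω = g ω' → X ω = X ω') (n : ℝ) :
    ∑ ω, μ ω * (n - CH (cw μ X ω) f g) = n * mass μ - CH μ f g := by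
  rw [← xg_CH' μ hμ f g X hg]
  unfold mass
  rw [Finset.mul_sum, ← Finset.sum_sub_distrib]
  exact Finset.sum_congr rfl fun ω _ => by ring

/-- **good levels**: if the average total cost is at most `δ T η` then outside of mass `δ` at most `η`
levels have a cost above `T` -/
theorem xg_levels (μ : Ω → ℝ) (hμ : ∀ ω, 0 ≤ μ ω) (L : ℕ) (c : Ω → ℕ → ℝ)
    (hc : ∀ ω, μ ω ≠ 0 → ∀ m < L, 0 ≤ c ω m) (T δ η : ℝ) (hT : 0 < T) (hη : 0 < η)
    (h : ∑ ω, μ ω * ∑ m ∈ range L, c ω m ≤ δ * (T * η)) :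
    Pw μ (fun ω => η < (((range L).filter (fun m => T < c ω m)).card : ℝ)) ≤ δ := by
  classical
  have h1 := Pw_markov μ hμ (fun ω => ∑ m ∈ range L, c ω m)
    (fun ω h0 => Finset.sum_nonneg fun m hm => hc ω h0 m (Finset.mem_range.mp hm))
    (mul_pos hT hη) h
  rw [mul_div_assoc, div_self (mul_pos hT hη).ne', mul_one] at h1
  refine le_trans (Pw_mono μ hμ ?_) h1
  intro ω h0 hcard
  have h2 : (((range L).filter (fun m => T < c ω m)).card : ℝ) * T ≤ ∑ m ∈ range L, c ω m := by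
    calc (((range L).filter (fun m => T < c ω m)).card : ℝ) * T
        = ∑ _m ∈ (range L).filter (fun m => T < c ω m), T := by
          rw [Finset.sum_const, nsmul_eq_mul]
      _ ≤ ∑ m ∈ (range L).filter (fun m => T < c ω m), c ω m :=
          Finset.sum_le_sum fun m hm => (Finset.mem_filter.mp hm).2.le
      _ ≤ ∑ m ∈ range L, c ω m := Finset.sum_le_sum_of_subset_of_nonneg (Finset.filter_subset _ _)
          fun m hm _ => hc ω h0 m (Finset.mem_range.mp hm)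
  have h3 : T * η < T * (((range L).filter (fun m => T < c ω m)).card : ℝ) :=
    mul_lt_mul_of_pos_left hcard hT
  calc T * η < T * (((range L).filter (fun m => T < c ω m)).card : ℝ) := h3
    _ = (((range L).filter (fun m => T < c ω m)).card : ℝ) * T := mul_comm _ _
    _ ≤ ∑ m ∈ range L, c ω m := h2

/-- good levels for costs with two levels, rows -/
theorem xg_rows (μ : Ω → ℝ) (hμ : ∀ ω, 0 ≤ μ ω) (L K : ℕ) (c : Ω → ℕ → ℕ → ℝ)
    (hc : ∀ ω, μ ω ≠ 0 → ∀ m < L, ∀ j < K, 0 ≤ c ω m j) (T δ η : ℝ) (hT : 0 < T) (hη : 0 < η)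
    (h : ∑ m ∈ range L, ∑ j ∈ range K, ∑ ω, μ ω * c ω m j ≤ δ * (T * η)) :
    Pw μ (fun ω => η < (((range L).filter (fun m => T < ∑ j ∈ range K, c ω m j)).card : ℝ)) ≤ δ := by
  refine xg_levels μ hμ L (fun ω m => ∑ j ∈ range K, c ω m j) (fun ω h0 m hm =>
    Finset.sum_nonneg fun j hj => hc ω h0 m hm j (Finset.mem_range.mp hj)) T δ η hT hη ?_
  refine le_of_eq_of_le ?_ h
  calc ∑ ω, μ ω * ∑ m ∈ range L, ∑ j ∈ range K, c ω m j
      = ∑ ω, ∑ m ∈ range L, ∑ j ∈ range K, μ ω * c ω m j := by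
        refine Finset.sum_congr rfl fun ω _ => ?_
        rw [Finset.mul_sum]
        exact Finset.sum_congr rfl fun m _ => by rw [Finset.mul_sum]
    _ = ∑ m ∈ range L, ∑ j ∈ range K, ∑ ω, μ ω * c ω m j := by
        rw [Finset.sum_comm]
        refine Finset.sum_congr rfl fun m _ => ?_
        rw [Finset.sum_comm]

/-- good levels for costs with two levels, columns -/
theorem xg_cols (μ : Ω → ℝ) (hμ : ∀ ω, 0 ≤ μ ω) (L K : ℕ) (c : Ω → ℕ → ℕ → ℝ)
    (hc : ∀ ω, μ ω ≠ 0 → ∀ m < L, ∀ j < K, 0 ≤ c ω m j) (T δ η : ℝ) (hT : 0 < T) (hη : 0 < η)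
    (h : ∑ m ∈ range L, ∑ j ∈ range K, ∑ ω, μ ω * c ω m j ≤ δ * (T * η)) :
    Pw μ (fun ω => η < (((range K).filter (fun j => T < ∑ m ∈ range L, c ω m j)).card : ℝ)) ≤ δ := by
  refine xg_rows μ hμ K L (fun ω j m => c ω m j) (fun ω h0 j hj m hm => hc ω h0 m hm j hj)
    T δ η hT hη ?_
  rwa [Finset.sum_comm]

/-- finitely many exceptional sets -/
theorem xg_union {ι : Type} (μ : Ω → ℝ) (hμ : ∀ ω, 0 ≤ μ ω) (S : Finset ι) (A : ι → Ω → Prop)
    (δ : ℝ) (h : ∀ i ∈ S, Pw μ (A i) ≤ δ) : Pw μ (fun ω => ∃ i ∈ S, A i ω) ≤ S.card * δ := by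
  classical
  induction S using Finset.induction_on with
  | empty =>
    have : Pw μ (fun ω => ∃ i ∈ (∅ : Finset ι), A i ω) = 0 := by
      unfold Pw
      exact Finset.sum_eq_zero fun ω _ => by simp
    rw [this]
    simp
  | insert i S hi ih =>
    have h1 := ih fun j hj => h j (Finset.mem_insert_of_mem hj)
    have h2 := h i (Finset.mem_insert_self i S)
    have h3 : Pw μ (fun ω => ∃ j ∈ insert i S, A j ω) ≤
        Pw μ (fun ω => A i ω ∨ ∃ j ∈ S, A j ω) := by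
      refine Pw_mono μ hμ fun ω _ h4 => ?_
      obtain ⟨j, hj, hA⟩ := h4
      rcases Finset.mem_insert.mp hj with rfl | hj'
      · exact Or.inl hA
      · exact Or.inr ⟨j, hj', hA⟩
    have h5 := Pw_or μ hμ (A i) (fun ω => ∃ j ∈ S, A j ω)
    rw [Finset.card_insert_of_notMem hi]
    push_cast
    linarith

/-- **[XG0]**: a finite family of costs with two levels of average total `e ^ 4 L K`: good rows and good columns
(functions of the costs of the point) -/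
theorem xg0 {ι : Type} (μ : Ω → ℝ) (hμ : ∀ ω, 0 ≤ μ ω) (S : Finset ι) (L K : ℕ) (hL : 0 < L) (hK : 0 < K)
    (c : ι → Ω → ℕ → ℕ → ℝ) (hc : ∀ i ∈ S, ∀ ω, μ ω ≠ 0 → ∀ m < L, ∀ j < K, 0 ≤ c i ω m j) (e : ℝ)
    (he : 0 < e) (h : ∑ i ∈ S, ∑ m ∈ range L, ∑ j ∈ range K, ∑ ω, μ ω * c i ω m j ≤ e ^ 4 * (L * K)) :
    ∃ G G' : Ω → Finset ℕ, (∀ ω, G ω ⊆ range L ∧ G' ω ⊆ range K) ∧
      (∀ ω ω', (∀ i ∈ S, ∀ m < L, ∀ j < K, c i ω m j = c i ω' m j) → G ω = G ω' ∧ G' ω = G' ω') ∧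
      Pw μ (fun ω => ¬ (((range L \ G ω).card : ℝ) ≤ e * L ∧ ((range K \ G' ω).card : ℝ) ≤ e * K)) ≤ 2 * e ∧
      (∀ ω, μ ω ≠ 0 → ∀ m ∈ G ω, ∀ i ∈ S, ∑ j ∈ range K, c i ω m j ≤ e ^ 2 * K) ∧
      (∀ ω, μ ω ≠ 0 → ∀ j ∈ G' ω, ∀ i ∈ S, ∑ m ∈ range L, c i ω m j ≤ e ^ 2 * L) := by
  classical
  have hL0 : (0 : ℝ) < L := by exact_mod_cast hL
  have hK0 : (0 : ℝ) < K := by exact_mod_cast hK
  set d : Ω → ℕ → ℕ → ℝ := fun ω m j => ∑ i ∈ S, c i ω m j with hd
  have hd0 : ∀ ω, μ ω ≠ 0 → ∀ m < L, ∀ j < K, 0 ≤ d ω m j := fun ω h0 m hm j hj =>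
    Finset.sum_nonneg fun i hi => hc i hi ω h0 m hm j hj
  have hcd : ∀ i ∈ S, ∀ ω, μ ω ≠ 0 → ∀ m < L, ∀ j < K, c i ω m j ≤ d ω m j := fun i hi ω h0 m hm j hj =>
    Finset.single_le_sum (f := fun i => c i ω m j) (fun i' hi' => hc i' hi' ω h0 m hm j hj) hi
  have hsum : ∑ m ∈ range L, ∑ j ∈ range K, ∑ ω, μ ω * d ω m j ≤ e ^ 4 * (L * K) := by
    refine le_of_eq_of_le ?_ h
    rw [Finset.sum_comm (s := S)]
    refine Finset.sum_congr rfl fun m _ => ?_
    rw [Finset.sum_comm (s := S)]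
    refine Finset.sum_congr rfl fun j _ => ?_
    rw [Finset.sum_comm (s := S)]
    exact Finset.sum_congr rfl fun ω _ => by rw [hd, Finset.mul_sum]
  set G : Ω → Finset ℕ := fun ω => (range L).filter (fun m => ¬ e ^ 2 * K < ∑ j ∈ range K, d ω m j) with hG
  set G' : Ω → Finset ℕ := fun ω => (range K).filter (fun j => ¬ e ^ 2 * L < ∑ m ∈ range L, d ω m j) with hG'
  have e1 : ∀ ω, range L \ G ω = (range L).filter (fun m => e ^ 2 * K < ∑ j ∈ range K, d ω m j) := by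
    intro ω
    ext m
    simp only [hG, Finset.mem_sdiff, Finset.mem_filter]
    tauto
  have e2 : ∀ ω, range K \ G' ω = (range K).filter (fun j => e ^ 2 * L < ∑ m ∈ range L, d ω m j) := by
    intro ω
    ext m
    simp only [hG', Finset.mem_sdiff, Finset.mem_filter]
    tauto
  have h1 := xg_rows μ hμ L K d hd0 (e ^ 2 * K) e (e * L) (by positivity) (by positivity)
    (hsum.trans (le_of_eq (by ring)))
  have h2 := xg_cols μ hμ L K d hd0 (e ^ 2 * L) e (e * K) (by positivity) (by positivity)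
    (hsum.trans (le_of_eq (by ring)))
  refine ⟨G, G', fun ω => ⟨Finset.filter_subset _ _, Finset.filter_subset _ _⟩, ?_, ?_, ?_, ?_⟩
  · intro ω ω' heq
    have h3 : ∀ m < L, ∀ j < K, d ω m j = d ω' m j := fun m hm j hj =>
      Finset.sum_congr rfl fun i hi => heq i hi m hm j hj
    constructor
    · refine Finset.filter_congr fun m hm => ?_
      rw [Finset.sum_congr rfl fun j hj => h3 m (Finset.mem_range.mp hm) j (Finset.mem_range.mp hj)]
    · refine Finset.filter_congr fun j hj => ?_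
      rw [Finset.sum_congr rfl fun m hm => h3 m (Finset.mem_range.mp hm) j (Finset.mem_range.mp hj)]
  · have h3 : Pw μ (fun ω => ¬ (((range L \ G ω).card : ℝ) ≤ e * L ∧ ((range K \ G' ω).card : ℝ) ≤ e * K)) ≤
        Pw μ (fun ω =>
          (e * L < (((range L).filter (fun m => e ^ 2 * K < ∑ j ∈ range K, d ω m j)).card : ℝ)) ∨
          (e * K < (((range K).filter (fun j => e ^ 2 * L < ∑ m ∈ range L, d ω m j)).card : ℝ))) := by
      refine Pw_mono μ hμ fun ω _ h4 => ?_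
      rw [e1, e2] at h4
      by_contra hcon
      push Not at hcon
      exact h4 hcon
    have h4 := Pw_or μ hμ
      (fun ω => e * L < (((range L).filter (fun m => e ^ 2 * K < ∑ j ∈ range K, d ω m j)).card : ℝ))
      (fun ω => e * K < (((range K).filter (fun j => e ^ 2 * L < ∑ m ∈ range L, d ω m j)).card : ℝ))
    linarith
  · intro ω h0 m hm i hi
    obtain ⟨hm1, hm2⟩ := Finset.mem_filter.mp hm
    refine le_trans (Finset.sum_le_sum fun j hj => ?_) (not_lt.mp hm2)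
    exact hcd i hi ω h0 m (Finset.mem_range.mp hm1) j (Finset.mem_range.mp hj)
  · intro ω h0 j hj i hi
    obtain ⟨hj1, hj2⟩ := Finset.mem_filter.mp hj
    refine le_trans (Finset.sum_le_sum fun m hm => ?_) (not_lt.mp hj2)
    exact hcd i hi ω h0 m (Finset.mem_range.mp hm) j (Finset.mem_range.mp hj1)

/-- a good value exists, even inside of an event -/
theorem xg_exists (μ : Ω → ℝ) (hm : ∑ ω, μ ω = 1) (A : Ω → Prop) (δ : ℝ)
    (h : Pw μ A ≤ δ) (hδ : δ < 1) : ∃ ω, μ ω ≠ 0 ∧ ¬ A ω := by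
  have h1 := Pw_compl μ hm A
  exact Pw_exists μ (by linarith)

/-- an event of small probability has small conditional probability for most values of the label -/
theorem xg_cond (μ : Ω → ℝ) (hμ : ∀ ω, 0 ≤ μ ω) (X : Ω → γ) (A : Ω → Prop) (p q : ℝ) (hq : 0 < q)
    (h : Pw μ A ≤ p * q) : Pw μ (fun ω => q < Pw (cw μ X ω) A) ≤ p := by
  have h1 := Pw_markov μ hμ (fun ω => Pw (cw μ X ω) A)
    (fun ω _ => Pw_nonneg _ (fun ω' => cw_nonneg μ X hμ ω ω') A) hq
    ((xg_Pw μ hμ X A).le.trans h)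
  rwa [mul_div_assoc, div_self hq.ne', mul_one] at h1

/-- conditional law of a conditional law -/
theorem xg_cw_cw (μ : Ω → ℝ) (hμ : ∀ ω, 0 ≤ μ ω) (X : Ω → γ) (G : Ω → α) (ω ω1 ω' : Ω)
    (h1 : cw μ X ω ω1 ≠ 0)
    (hG : ∀ a b, μ a ≠ 0 → μ b ≠ 0 → G a = G b → X a = X b) :
    cw (cw μ X ω) G ω1 ω' = cw μ G ω1 ω' := by
  classical
  obtain ⟨hX, h0⟩ := cw_ne_zero μ X h1
  have hpX : pr μ X ω ≠ 0 := by
    rw [← e1_pr_atom μ X ω1 ω hX]
    exact (e1_pr_pos μ X hμ ω1 h0).ne'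
  have e1 : pr (cw μ X ω) G ω1 = pr μ G ω1 / pr μ X ω := by
    rw [Pool.Agent.Helper92.W.red_pr_cw μ G X ω ω1 hX]
    congr 1
    apply e1_pr_congr
    intro b hb
    constructor
    · intro e
      exact (Prod.mk.inj e).1
    · intro e
      rw [e, hG b ω1 hb h0 e]
  have hpG := (e1_pr_pos μ G hμ ω1 h0).ne'
  unfold cw at e1 ⊢
  rw [e1]
  by_cases h2 : G ω' = G ω1
  · rw [if_pos h2, if_pos h2]
    by_cases h3 : μ ω' = 0
    · rw [h3]
      simp
    · rw [if_pos ((hG ω' ω1 h3 h0 h2).trans hX)]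
      field_simp
  · rw [if_neg h2, if_neg h2, zero_div, zero_div]

end Pool.Agent.Helper92.FW
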